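import Pool.Agent.Helper89.OC.St2

/-!
# OC MODULE E4
-/

set_option autoImplicit false

namespace Pool.Agent.Helper24.OC

open Matrix ComplexConjugate Pool.Agent.Helper94.YF Pool.Agent.Helper94.YG Pool.Agent.Helper89.OS
  Pool.Agent.Helper89.OC

open Classical in
private theorem reidx {I : Type} [Fintype I] [DecidableEq I] {p : ℕ} [NeZero p] (X : PD I p 1)
    (hOB : OB X) (u : I → ℂ) (c : (ZMod (p ^ 1))ˣ) (i : I) :
    ∑ k, (X.s i (X.pi c k) * u k) = ∑ k, X.s i k * u (X.pi c⁻¹ k) := by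
  refine Fintype.sum_bijective (X.pi c) (hOB.bij c) _ _ ?_
  intro k
  have h : X.pi c⁻¹ (X.pi c k) = k := by
    rw [← X.pi_mul, inv_mul_cancel, X.pi_one]
  rw [h]

open Classical in
private theorem invsum {I : Type} [Fintype I] [DecidableEq I] {p : ℕ} [NeZero p] (X : PD I p 1)
    (u : I → ℂ) (k : I) :
    ∑ c, u (X.pi c⁻¹ k) = ∑ c, u (X.pi c k) :=
  Fintype.sum_equiv (Equiv.inv _) _ _ (fun _ => rfl)

open Classical in
theorem hE4 : StE4 := by
  intro hE2 hORB I _ _ p _ X u hu hsum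
  have hOB := hORB I p X
  have h1 := hE2 I p X u hu 1 (one_pow p)
  have hz : ∑ c : (ZMod (p ^ 1))ˣ,
      (1 : ℂ) ^ (((c⁻¹ : (ZMod (p ^ 1))ˣ) : ZMod (p ^ 1))).val *
        ∑ i, ∑ k, conj (u i) * (X.s i (X.pi c k) * u k) = 0 := by
    have e1 : ∀ c : (ZMod (p ^ 1))ˣ,
        (1 : ℂ) ^ (((c⁻¹ : (ZMod (p ^ 1))ˣ) : ZMod (p ^ 1))).val *
        ∑ i, ∑ k, conj (u i) * (X.s i (X.pi c k) * u k) =
        ∑ i, ∑ k, conj (u i) * X.s i k * u (X.pi c⁻¹ k) := by
      intro c
      rw [one_pow, one_mul]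
      refine Finset.sum_congr rfl ?_
      intro i _
      rw [← Finset.mul_sum, reidx X hOB u c i, Finset.mul_sum]
      refine Finset.sum_congr rfl ?_
      intro k _
      ring
    rw [Finset.sum_congr rfl (fun c _ => e1 c), Finset.sum_comm]
    refine Finset.sum_eq_zero ?_
    intro i _
    rw [Finset.sum_comm]
    refine Finset.sum_eq_zero ?_
    intro k _
    rw [← Finset.mul_sum, invsum X u k, hsum k, mul_zero]
  rw [hz, add_zero] at h1
  exact_mod_cast h1

end Pool.Agent.Helper24.OC
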